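import Pool.Agent.Helper27.VF.Goals
import Pool.Agent.Helper58.VF.APP

/-!
# Coset form, generic in the subgroup `D`
-/

set_option autoImplicit false

namespace Pool.Agent.Helper77.BT

open Pool.Agent.Helper27.VF Pool.Agent.Helper58.VF Filter

universe u

section

variable {Γ : Type u} [Group Γ] (D : Subgroup Γ) (V₀ : Set Γ)

/-- The union of the translates `D v`, `v ∈ V₀`. -/
def DV : Type u := {x : Γ // ∃ d ∈ D, ∃ v ∈ V₀, x = d * v}

instance : MulAction D (DV D V₀) where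
  smul d x := ⟨(d : Γ) * x.1, by
    obtain ⟨d', hd', v, hv, hx⟩ := x.2
    exact ⟨d * d', D.mul_mem d.2 hd', v, hv, by rw [hx, mul_assoc]⟩⟩
  one_smul x := Subtype.ext (one_mul _)
  mul_smul a b x := Subtype.ext (mul_assoc _ _ _)

theorem smul_val (d : D) (x : DV D V₀) : (d • x).1 = (d : Γ) * x.1 := rfl

/-- The graph on `DV` of the translates of the edges in `E₀`. -/
def GE (E₀ : Set (Γ × Γ)) : SimpleGraph (DV D V₀) :=
  SimpleGraph.fromRel fun x y => ∃ d ∈ D, (d⁻¹ * x.1, d⁻¹ * y.1) ∈ E₀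

theorem GE_reach {V₀ : Set Γ} {E₀ : Set (Γ × Γ)} {S : Set Γ} {x y : Γ} (ω : (cay S).Walk x y)
    (hV : ∀ z ∈ ω.support, z ∈ V₀) (hE : ∀ z z', (z, z') ∈ ω.darts.map (fun e => (e.fst, e.snd)) →
      (z, z') ∈ E₀) (d : D) :
    (GE D V₀ E₀).Reachable ⟨(d : Γ) * x, d, d.2, x, hV x ω.start_mem_support, rfl⟩
      ⟨(d : Γ) * y, d, d.2, y, hV y ω.end_mem_support, rfl⟩ := by
  induction ω with
  | nil => exact SimpleGraph.Reachable.refl _
  | cons h ω ih =>
    rename_i x x' y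
    have h1 : ∀ z ∈ ω.support, z ∈ V₀ := fun z hz => hV z (by
      rw [SimpleGraph.Walk.support_cons]
      exact List.mem_cons_of_mem _ hz)
    have h2 : ∀ z z', (z, z') ∈ ω.darts.map (fun e => (e.fst, e.snd)) → (z, z') ∈ E₀ :=
      fun z z' hz => hE z z' (by
        rw [SimpleGraph.Walk.darts_cons, List.map_cons]
        exact List.mem_cons_of_mem _ hz)
    refine SimpleGraph.Reachable.trans (SimpleGraph.Adj.reachable ?_) (ih h1 h2)
    unfold GE
    rw [SimpleGraph.fromRel_adj]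
    refine ⟨?_, Or.inl ⟨d, d.2, ?_⟩⟩
    · intro h3
      have h4 : (d : Γ) * x = (d : Γ) * x' := congrArg Subtype.val h3
      exact h.ne (mul_left_cancel h4)
    · change ((d : Γ)⁻¹ * ((d : Γ) * x), (d : Γ)⁻¹ * ((d : Γ) * x')) ∈ E₀
      rw [inv_mul_cancel_left, inv_mul_cancel_left]
      refine hE _ _ ?_
      rw [SimpleGraph.Walk.darts_cons, List.map_cons]
      exact List.mem_cons_self

end

theorem ap3 (hK : KndStmt.{u}) (Γ : Type u) [Group Γ] (D : Subgroup Γ) (hD : Group.FG D)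
    (hCon : ∀ (W : Type u) [MulAction D W] (G G₀ : SimpleGraph W) (w : W) (p : Ultrafilter W),
      Stg D G G₀ w p → Con D G p) (S : Set Γ) (hS : Subgroup.closure S = ⊤)
    (h1 : (1 : Γ) ∉ S) (b : Γ) (hinf : {s | s ∈ S ∧ s * b⁻¹ ∈ D}.Infinite) :
    ∃ φ : ℕ → Set Γ,
      (∀ i, ((SimpleGraph.fromRel fun a b : Γ => a⁻¹ * b ∈ S).induce (φ i)).Connected) ∧
      (∀ i j, i ≠ j → Disjoint (φ i) (φ j)) ∧
      ∀ i j, i ≠ j → ∃ a ∈ φ i, ∃ b ∈ φ j,
        (SimpleGraph.fromRel fun a b : Γ => a⁻¹ * b ∈ S).Adj a b := by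
  classical
  obtain ⟨n, T, -, hT⟩ := Group.fg_iff'.1 hD
  have hcon := cay_conn hS
  have hw : ∀ g : Γ, Nonempty ((cay S).Walk 1 g) := fun g => hcon.preconnected 1 g
  let ω : ∀ g : Γ, (cay S).Walk 1 g := fun g => (hw g).some
  let F₀ : Set Γ := insert b ((fun t : D => (t : Γ)) '' (T : Set D))
  have hF₀ : F₀.Finite := (T.finite_toSet.image _).insert b
  let V₀ : Set Γ := ⋃ g ∈ F₀, {z | z ∈ (ω g).support}
  let E₀ : Set (Γ × Γ) := ⋃ g ∈ F₀, {e | e ∈ (ω g).darts.map (fun e => (e.fst, e.snd))}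
  have hV₀ : V₀.Finite := Set.Finite.biUnion hF₀ fun g _ => List.finite_toSet _
  have hE₀ : E₀.Finite := Set.Finite.biUnion hF₀ fun g _ => List.finite_toSet _
  have hE₁ : ∀ z z', (z, z') ∈ E₀ → (cay S).Adj z z' := by
    intro z z' hz
    obtain ⟨g, hg, hz⟩ := Set.mem_iUnion₂.1 hz
    obtain ⟨e, he, hez⟩ := List.mem_map.1 hz
    have h2 := e.adj
    have h3 : e.fst = z := congrArg Prod.fst hez
    have h4 : e.snd = z' := congrArg Prod.snd hez
    rwa [h3, h4] at h2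
  have h1V : (1 : Γ) ∈ V₀ :=
    Set.mem_iUnion₂.2 ⟨b, Set.mem_insert _ _, (ω b).start_mem_support⟩
  have hbV : b ∈ V₀ :=
    Set.mem_iUnion₂.2 ⟨b, Set.mem_insert _ _, (ω b).end_mem_support⟩
  let w : DV D V₀ := ⟨1, 1, D.one_mem, 1, h1V, (mul_one _).symm⟩
  let G₀ : SimpleGraph (DV D V₀) := GE D V₀ E₀
  let G : SimpleGraph (DV D V₀) := (cay S).comap Subtype.val
  have hG : ∀ x y : DV D V₀, G.Adj x y ↔ (cay S).Adj x.1 y.1 := fun x y => Iff.rfl
  have hG₀ : ∀ x y : DV D V₀, G₀.Adj x y ↔ x ≠ y ∧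
      ((∃ d ∈ D, (d⁻¹ * x.1, d⁻¹ * y.1) ∈ E₀) ∨ ∃ d ∈ D, (d⁻¹ * y.1, d⁻¹ * x.1) ∈ E₀) :=
    fun x y => Iff.rfl
  -- the walks give reachability
  have hr1 : ∀ t ∈ T, ∀ d : D, G₀.Reachable (d • w) ((d * t) • w) := by
    intro t ht d
    have h2 := GE_reach (V₀ := V₀) (E₀ := E₀) D (ω (t : Γ))
      (fun z hz => Set.mem_iUnion₂.2 ⟨t, Or.inr ⟨t, ht, rfl⟩, hz⟩)
      (fun z z' hz => Set.mem_iUnion₂.2 ⟨t, Or.inr ⟨t, ht, rfl⟩, hz⟩) d
    have e2 : ((d * t) • w : DV D V₀).1 = (d : Γ) * t := by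
      rw [smul_val]
      change ((d * t : D) : Γ) * 1 = _
      rw [mul_one, Subgroup.coe_mul]
    have htV : (t : Γ) ∈ V₀ :=
      Set.mem_iUnion₂.2 ⟨t, Or.inr ⟨t, ht, rfl⟩, (ω (t : Γ)).end_mem_support⟩
    have e3 : ((d * t) • w : DV D V₀) = ⟨(d : Γ) * t, d, d.2, t, htV, rfl⟩ := Subtype.ext e2
    rw [e3]
    exact h2
  have hr2 : ∀ g : D, ∀ d : D, G₀.Reachable (d • w) ((d * g) • w) := by
    intro g
    have hg : g ∈ Subgroup.closure (T : Set D) := by rw [hT]; exact Subgroup.mem_top _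
    induction hg using Subgroup.closure_induction with
    | mem t ht => exact hr1 t ht
    | one => intro d; rw [mul_one]
    | mul a c _ _ ha hc =>
      intro d
      rw [← mul_assoc]
      exact (ha d).trans (hc (d * a))
    | inv a _ ha =>
      intro d
      have h := ha (d * a⁻¹)
      rw [inv_mul_cancel_right] at h
      exact h.symm
  have hr3 : ∀ x : DV D V₀, G₀.Reachable w x := by
    intro x
    obtain ⟨d, hd, v, hv, hx⟩ := x.2
    obtain ⟨g, hg, hvg⟩ := Set.mem_iUnion₂.1 hv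
    have hvg' : v ∈ (ω g).support := hvg
    have h2 := GE_reach (V₀ := V₀) (E₀ := E₀) D ((ω g).takeUntil v hvg')
      (fun z hz => Set.mem_iUnion₂.2 ⟨g, hg, (ω g).support_takeUntil_subset_support hvg' hz⟩)
      (fun z z' hz => by
        obtain ⟨e, he, hez⟩ := List.mem_map.1 hz
        exact Set.mem_iUnion₂.2 ⟨g, hg,
          List.mem_map.2 ⟨e, (ω g).darts_takeUntil_subset_darts hvg' he, hez⟩⟩) ⟨d, hd⟩
    have e3 : x = ⟨d * v, d, hd, v, hv, rfl⟩ := Subtype.ext hx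
    have h3 := hr2 ⟨d, hd⟩ 1
    rw [one_smul, one_mul] at h3
    rw [e3]
    exact h3.trans h2
  have hconn : G₀.Connected := by
    have : Nonempty (DV D V₀) := ⟨w⟩
    exact ⟨fun x y => (hr3 x).symm.trans (hr3 y)⟩
  -- the ultrafilter
  let N : Set (DV D V₀) := {x | x.1 ∈ S ∧ x.1 * b⁻¹ ∈ D}
  have hN : N.Infinite := by
    intro hfin
    apply hinf
    refine (hfin.image (fun x : DV D V₀ => x.1)).subset ?_
    rintro s ⟨hs, hs'⟩
    exact ⟨⟨s, s * b⁻¹, hs', b, hbV, by group⟩, ⟨hs, hs'⟩, rfl⟩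
  have : (cofinite ⊓ 𝓟 N : Filter (DV D V₀)).NeBot := hN.cofinite_inf_principal_neBot
  obtain ⟨p, hp⟩ : ∃ p : Ultrafilter (DV D V₀), (p : Filter (DV D V₀)) ≤ cofinite ⊓ 𝓟 N :=
    ⟨Ultrafilter.of _, Ultrafilter.of_le _⟩
  have hpc : (p : Filter (DV D V₀)) ≤ cofinite := hp.trans inf_le_left
  have hpN : N ∈ p := (hp.trans inf_le_right) (mem_principal_self N)
  have hst : Stg D G G₀ w p := by
    refine { free := ?_, fin := ?_, le := ?_, inv := ?_, inv₀ := ?_, conn := hconn,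
             lf := ?_, nonp := ?_, nb := ?_ }
    · intro a x hax
      have h2 : (a : Γ) * x.1 = x.1 := congrArg Subtype.val hax
      exact Subtype.ext (mul_eq_right.1 h2)
    · refine ⟨{x | x.1 ∈ V₀}, hV₀.preimage Subtype.val_injective.injOn, ?_⟩
      intro x
      obtain ⟨d, hd, v, hv, hx⟩ := x.2
      exact ⟨⟨d, hd⟩, ⟨v, 1, D.one_mem, v, hv, (one_mul _).symm⟩, hv, Subtype.ext hx.symm⟩
    · intro x y hxy
      rw [hG₀] at hxy
      rw [hG]
      rcases hxy.2 with ⟨d, _, h2⟩ | ⟨d, _, h2⟩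
      · have h3 := cay_mul d (hE₁ _ _ h2)
        rwa [mul_inv_cancel_left, mul_inv_cancel_left] at h3
      · have h3 := cay_mul d (hE₁ _ _ h2)
        rw [mul_inv_cancel_left, mul_inv_cancel_left] at h3
        exact h3.symm
    · intro a x y hxy
      exact cay_mul (a : Γ) hxy
    · intro a x y hxy
      rw [hG₀] at hxy ⊢
      refine ⟨fun h2 => hxy.1 ?_, ?_⟩
      · have h3 : (a : Γ) * x.1 = (a : Γ) * y.1 := congrArg Subtype.val h2
        exact Subtype.ext (mul_left_cancel h3)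
      · have key : ∀ d z : Γ, ((a : Γ) * d)⁻¹ * ((a : Γ) * z) = d⁻¹ * z := by
          intro d z; group
        rcases hxy.2 with ⟨d, hd, h2⟩ | ⟨d, hd, h2⟩
        · refine Or.inl ⟨(a : Γ) * d, D.mul_mem a.2 hd, ?_⟩
          rw [smul_val, smul_val, key, key]
          exact h2
        · refine Or.inr ⟨(a : Γ) * d, D.mul_mem a.2 hd, ?_⟩
          rw [smul_val, smul_val, key, key]
          exact h2
    · intro x
      refine Set.Finite.subset (((hE₀.image fun e : Γ × Γ => x.1 * e.1⁻¹ * e.2).union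
        (hE₀.image fun e : Γ × Γ => x.1 * e.2⁻¹ * e.1)).preimage
          (f := fun y : DV D V₀ => y.1) Subtype.val_injective.injOn) ?_
      intro y hy
      rcases ((hG₀ x y).1 hy).2 with ⟨d, _, h2⟩ | ⟨d, _, h2⟩
      · exact Or.inl ⟨_, h2, by simp⟩
      · exact Or.inr ⟨_, h2, by simp⟩
    · intro F hF hFp
      have h2 : Fᶜ ∈ p := hpc hF.compl_mem_cofinite
      exact (Ultrafilter.compl_mem_iff_notMem.1 h2) hFp
    · refine Filter.mem_of_superset hpN ?_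
      rintro x ⟨hx, _⟩
      refine cay_adj.2 ⟨?_, Or.inl ?_⟩
      · intro h2
        have h3 : (1 : Γ) = x.1 := h2
        exact h1 (h3 ▸ hx)
      · change (1 : Γ)⁻¹ * x.1 ∈ S
        rw [inv_one, one_mul]
        exact hx
  obtain ⟨Z, hZ1, hZ2⟩ := hCon _ G G₀ w p hst
  have hinj : Function.Injective fun a : D => a • w := by
    intro a c hac
    have h2 : (a : Γ) * 1 = (c : Γ) * 1 := congrArg Subtype.val hac
    rw [mul_one, mul_one] at h2
    exact Subtype.ext h2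
  obtain ⟨φ, h2, h3, h4⟩ := hK _ G ((fun a : D => a • w) '' Z) (hZ1.image hinj.injOn) (by
    rintro _ ⟨a, ha, rfl⟩ _ ⟨c, hc, rfl⟩ q hq ⟨hx, hy⟩
    exact hZ2 a ha c hc q hq ⟨fact1 hst hq hx, fact1' hst hq hy⟩)
  refine ⟨fun i => (fun x : DV D V₀ => x.1) '' φ i, ?_, ?_, ?_⟩
  · intro i
    let f : G.induce (φ i) →g (cay S).induce ((fun x : DV D V₀ => x.1) '' φ i) :=
      { toFun := fun x => ⟨x.1.1, x.1, x.2, rfl⟩
        map_rel' := by
          intro x y hxy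
          exact hxy }
    refine (h2 i).map f ?_
    rintro ⟨_, y, hy, rfl⟩
    exact ⟨⟨y, hy⟩, rfl⟩
  · intro i j hij
    have h5 := Set.disjoint_left.1 (h3 i j hij)
    rw [Set.disjoint_left]
    rintro _ ⟨x, hx, rfl⟩ ⟨y, hy, hyx⟩
    have h6 : y = x := Subtype.ext hyx
    exact h5 hx (h6 ▸ hy)
  · intro i j hij
    obtain ⟨x, hx, y, hy, hxy⟩ := h4 i j hij
    exact ⟨x.1, ⟨x, hx, rfl⟩, y.1, ⟨y, hy, rfl⟩, hxy⟩

end Pool.Agent.Helper77.BT
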