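import Pool.Agent.Helper61.BT.Goals
import Pool.Agent.Helper77.BT.AP3

/-!
# Project BT, coset form: bounded finite subgroups of `D`
-/

set_option autoImplicit false

namespace Pool.Agent.Helper77.BT

open Pool.Agent.Helper27.VF Pool.Agent.Helper38.VF Pool.Agent.Helper61.BT Pool.Agent.Helper58.VF

universe u

/-- `Con` for finitely generated groups with bounded finite subgroups. -/
theorem con_bounded (hI : InbStmt.{u}) (hR : RkbStmt.{u}) (A : Type u) [Group A] (hA : Group.FG A)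
    (hN : ∃ N : ℕ, ∀ F : Subgroup A, (F : Set A).Finite → Nat.card F ≤ N)
    (W : Type u) [MulAction A W] (G G₀ : SimpleGraph W) (w : W) (p : Ultrafilter W)
    (hst : Stg A G G₀ w p) : Con A G p := by
  obtain ⟨N, hN⟩ := hN
  obtain ⟨n, F, -, hF⟩ := Group.fg_iff'.1 hA
  by_contra hc
  have hD := hI (2 * N * F.card + 1) A W G G₀ w p hst hc
  let e : Fin F.card ≃ F := F.equivFin.symm
  have hcl : Subgroup.closure (Set.range fun i : Fin F.card => ((e i : F) : A)) = ⊤ := by
    have hr : (Set.range fun i : Fin F.card => ((e i : F) : A)) = (F : Set A) := by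
      ext x
      constructor
      · rintro ⟨i, rfl⟩
        exact (e i).2
      · intro hx
        exact ⟨e.symm ⟨x, hx⟩, by simp⟩
    rw [hr, hF]
  have := hR A F.card (2 * N * F.card + 1) N (fun i => ((e i : F) : A)) hcl hN hD
  exact absurd this (Nat.not_succ_le_self _)

/-- The coset form for a finitely generated subgroup `D` with bounded finite subgroups. -/
theorem ap3b (hI : InbStmt.{u}) (hR : RkbStmt.{u}) (hK : KndStmt.{u}) (Γ : Type u) [Group Γ]
    (D : Subgroup Γ) (hD : Group.FG D)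
    (hN : ∃ N : ℕ, ∀ F : Subgroup D, (F : Set D).Finite → Nat.card F ≤ N) (S : Set Γ)
    (hS : Subgroup.closure S = ⊤) (h1 : (1 : Γ) ∉ S) (b : Γ)
    (hinf : {s | s ∈ S ∧ s * b⁻¹ ∈ D}.Infinite) :
    ∃ φ : ℕ → Set Γ,
      (∀ i, ((SimpleGraph.fromRel fun a b : Γ => a⁻¹ * b ∈ S).induce (φ i)).Connected) ∧
      (∀ i j, i ≠ j → Disjoint (φ i) (φ j)) ∧
      ∀ i j, i ≠ j → ∃ a ∈ φ i, ∃ b ∈ φ j,
        (SimpleGraph.fromRel fun a b : Γ => a⁻¹ * b ∈ S).Adj a b :=
  ap3 hK Γ D hD (fun W _ G G₀ w p hst => con_bounded hI hR D hD hN W G G₀ w p hst) S hS h1 b hinf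

end Pool.Agent.Helper77.BT
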