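import Pool.Agent.Helper61.BT.Goals
import Pool.Agent.Helper58.VF.APP

/-!
# Project BT, packet APB: finitely generated groups with bounded finite subgroups
-/

set_option autoImplicit false

namespace Pool.Agent.Helper77.BT

open Pool.Agent.Helper27.VF Pool.Agent.Helper38.VF Pool.Agent.Helper61.BT Pool.Agent.Helper58.VF

universe u

theorem apb (hI : InbStmt.{u}) (hR : RkbStmt.{u}) (hK : KndStmt.{u}) : ApbStmt.{u} := by
  intro Γ _ hG hN S hS _ h1 hinf
  obtain ⟨N, hN⟩ := hN
  have := hG
  let A : Subgroup Γ := ⊤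
  have hAf : A.FiniteIndex := inferInstanceAs ((⊤ : Subgroup Γ).FiniteIndex)
  have hAG : Group.FG A := Subgroup.fg_of_index_ne_zero A
  obtain ⟨T, hT⟩ := Group.fg_iff'.1 hAG
  obtain ⟨F, -, hF⟩ := hT
  have hNA : ∀ E : Subgroup A, (E : Set A).Finite → Nat.card E ≤ N := by
    intro E hE
    have e1 : ((E.map A.subtype : Subgroup Γ) : Set Γ).Finite := by
      rw [Subgroup.coe_map]
      exact hE.image _
    have e2 := hN (E.map A.subtype) e1
    rwa [← Nat.card_congr (E.equivMapOfInjective A.subtype A.subtype_injective).toEquiv] at e2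
  obtain ⟨G₀, p, hst⟩ := setting hG A hAf S hS h1 hinf
  have hCon : Con A (cay S) p := by
    by_contra hc
    have hD := hI (2 * N * F.card + 1) A Γ (cay S) G₀ 1 p hst hc
    let e : Fin F.card ≃ F := F.equivFin.symm
    have hcl : Subgroup.closure (Set.range fun i : Fin F.card => ((e i : F) : A)) = ⊤ := by
      have hr : (Set.range fun i : Fin F.card => ((e i : F) : A)) = (F : Set A) := by
        ext x
        constructor
        · rintro ⟨i, rfl⟩
          exact (e i).2
        · intro hx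
          exact ⟨e.symm ⟨x, hx⟩, by simp⟩
      rw [hr, hF]
    have := hR A F.card (2 * N * F.card + 1) N (fun i => ((e i : F) : A)) hcl hNA hD
    exact absurd this (Nat.not_succ_le_self _)
  obtain ⟨Z, hZ1, hZ2⟩ := hCon
  refine hK Γ (cay S) ((fun a : A => (a : Γ)) '' Z) (hZ1.image Subtype.val_injective.injOn) ?_
  rintro _ ⟨a, ha, rfl⟩ _ ⟨b, hb, rfl⟩ c hc ⟨hx, hy⟩
  have e1 : ∀ a : A, a • (1 : Γ) = (a : Γ) := fun a => by
    rw [Subgroup.smul_def, smul_eq_mul, mul_one]
  refine hZ2 a ha b hb c hc ⟨fact1 hst hc ?_, fact1' hst hc ?_⟩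
  · rw [e1]; exact hx
  · rw [e1]; exact hy

end Pool.Agent.Helper77.BT
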